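import Pool.Agent.H94.GL4

set_option autoImplicit false
open Set

namespace Pool.Agent.Results.MP_770c06_an.NotAccessible
open Pool.Agent.H94.GL

theorem result : ∃ n : ℕ, 3 ≤ n ∧
    ∃ (D : Set (E n)) (x₀ : E n) (g : E n → EReal) (t : ℝ) (y : E n),
      IsConnected D ∧ LinAcc D ∧ x₀ ∈ D ∧ IsGreen D x₀ g ∧ 0 < t ∧
      y ∉ {x ∈ D | (t : EReal) < g x} ∧
      ∀ v : E n, ‖v‖ = 1 → ∃ s : ℝ, 0 ≤ s ∧ y + s • v ∈ {x ∈ D | (t : EReal) < g x} :=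
  ⟨4, by norm_num, DD, pp, gr pp uu, tt, yy, cand.conn, linAcc, pp_mem, cand.green,
    by unfold tt; norm_num, yy_not, trapped⟩

end Pool.Agent.Results.MP_770c06_an.NotAccessible
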